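import Mathlib
import Pool.Agent.R3.Stmts

set_option autoImplicit false
set_option linter.unusedSectionVars false

namespace Pool.Agent.R3.H4

variable {V : Type} [Fintype V] [DecidableEq V]

theorem ct_sum (l : V → Fin 3) (j : Fin 3) :
    (ct l j : ℤ) = ∑ v, (if l v = j then (1 : ℤ) else 0) := by
  unfold ct
  rw [Finset.card_filter]
  push_cast
  rfl

theorem ct_update (l : V → Fin 3) (v : V) (i j : Fin 3) :
    (ct (Function.update l v i) j : ℤ) =
      ct l j - (if l v = j then 1 else 0) + (if i = j then 1 else 0) := by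
  rw [ct_sum, ct_sum, ← Finset.add_sum_erase Finset.univ _ (Finset.mem_univ v),
    ← Finset.add_sum_erase Finset.univ (fun w => if l w = j then (1 : ℤ) else 0)
      (Finset.mem_univ v)]
  have h : ∑ x ∈ Finset.univ.erase v, (if Function.update l v i x = j then (1 : ℤ) else 0) =
      ∑ x ∈ Finset.univ.erase v, (if l x = j then (1 : ℤ) else 0) := by
    apply Finset.sum_congr rfl
    intro x hx
    rw [Function.update_of_ne (Finset.ne_of_mem_erase hx)]
  rw [h, Function.update_self]
  ring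

theorem pt_update (l : V → Fin 3) (v : V) (i : Fin 3) :
    pt (Function.update l v i) = pt l - dl (l v) + dl i := by
  unfold pt dl
  rw [ct_update, ct_update]
  rfl

theorem dl_zero : dl 0 = (0, 0) := by
  unfold dl
  simp

theorem pt_upd (l : V → Fin 3) (v : V) (i : Fin 3) (k : ℤ × ℤ)
    (h : pt l = k + dl (l v)) : pt (Function.update l v i) = k + dl i := by
  rw [pt_update, h]
  abel

theorem nu_add (l : V → Fin 3) (v : V) (h : l v ≠ 0) :
    nu (Function.update l v 0) + 1 = nu l := by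
  unfold nu
  have : (Finset.univ.filter (fun w => l w ≠ 0)) =
      insert v (Finset.univ.filter (fun w => Function.update l v 0 w ≠ 0)) := by
    ext w
    rcases eq_or_ne w v with rfl | hw
    · simp [h]
    · simp [hw]
  rw [this, Finset.card_insert_of_notMem]
  simp

theorem ph_update_ne (σ : Fin 3 → Equiv.Perm V) (l : V → Fin 3) {v w : V} (i : Fin 3)
    (h : w ≠ v) : ph σ (Function.update l v i) w = ph σ l w := by
  unfold ph
  rw [Function.update_of_ne h]

theorem ph_update_self (σ : Fin 3 → Equiv.Perm V) (l : V → Fin 3) (v : V) (i : Fin 3) :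
    ph σ (Function.update l v i) v = σ i v := by
  unfold ph
  rw [Function.update_self]

theorem ph_zero {σ : Fin 3 → Equiv.Perm V} (s0 : σ 0 = 1) {l : V → Fin 3} {v : V}
    (h : l v = 0) : ph σ l v = v := by
  unfold ph
  rw [h, s0]
  rfl

theorem Fd_pos {σ : Fin 3 → Equiv.Perm V} {b c : ℤ} {B : (V → Fin 3) → ℤ} {l : V → Fin 3}
    {x y : V} (h : x ≠ y ∧ l y ≠ 0) : Fd σ b c B l x y =
      W b c l (Function.update l y 0) + Fd σ b c B (Function.update l y 0) x (ph σ l y) := by
  rw [Fd, dif_pos h]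

theorem Fd_neg {σ : Fin 3 → Equiv.Perm V} {b c : ℤ} {B : (V → Fin 3) → ℤ} {l : V → Fin 3}
    {x y : V} (h : ¬ (x ≠ y ∧ l y ≠ 0)) : Fd σ b c B l x y = B l := by
  rw [Fd, dif_neg h]

theorem ret_pos {σ : Fin 3 → Equiv.Perm V} {l : V → Fin 3}
    {x y : V} (h : x ≠ y ∧ l y ≠ 0) : ret σ l x y =
      ret σ (Function.update l y 0) x (ph σ l y) := by
  rw [ret, dif_pos h]

theorem ret_neg {σ : Fin 3 → Equiv.Perm V} {l : V → Fin 3}
    {x y : V} (h : ¬ (x ≠ y ∧ l y ≠ 0)) : ret σ l x y = l := by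
  rw [ret, dif_neg h]

theorem Fd_sub (σ : Fin 3 → Equiv.Perm V) (b c : ℤ) (B B' : (V → Fin 3) → ℤ) :
    ∀ (n : ℕ) (l : V → Fin 3) (x y : V), nu l ≤ n →
      Fd σ b c B l x y - Fd σ b c B' l x y = B (ret σ l x y) - B' (ret σ l x y) := by
  intro n
  induction n with
  | zero =>
    intro l x y hn
    have h : ¬ (x ≠ y ∧ l y ≠ 0) := by
      rintro ⟨_, h2⟩
      have := nu_lt h2
      omega
    rw [Fd_neg h, Fd_neg h, ret_neg h]
  | succ n ih =>
    intro l x y hn
    by_cases h : x ≠ y ∧ l y ≠ 0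
    · rw [Fd_pos h, Fd_pos h, ret_pos h]
      have := nu_lt h.2
      have := ih (Function.update l y 0) x (ph σ l y) (by omega)
      linarith
    · rw [Fd_neg h, Fd_neg h, ret_neg h]

theorem Ps_eq_Fd (σ : Fin 3 → Equiv.Perm V) (b c : ℤ) :
    ∀ (n : ℕ) (l : V → Fin 3) (x y : V), nu l ≤ n →
      Ps σ b c l x y = Fd σ b c (Bs σ b c) l x y := by
  intro n
  induction n with
  | zero =>
    intro l x y hn
    have h : ¬ (x ≠ y ∧ l y ≠ 0) := by
      rintro ⟨_, h2⟩
      have := nu_lt h2
      omega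
    rw [Fd_neg h, Ps, dif_neg h]
    unfold Bs Bg
    rfl
  | succ n ih =>
    intro l x y hn
    by_cases h : x ≠ y ∧ l y ≠ 0
    · rw [Fd_pos h, Ps, dif_pos h]
      have := nu_lt h.2
      rw [ih (Function.update l y 0) x (ph σ l y) (by omega)]
    · rw [Fd_neg h, Ps, dif_neg h]
      unfold Bs Bg
      rfl

theorem nu_ret (σ : Fin 3 → Equiv.Perm V) :
    ∀ (n : ℕ) (l : V → Fin 3) (x y : V), nu l ≤ n → nu (ret σ l x y) ≤ nu l := by
  intro n
  induction n with
  | zero =>
    intro l x y hn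
    have h : ¬ (x ≠ y ∧ l y ≠ 0) := by
      rintro ⟨_, h2⟩
      have := nu_lt h2
      omega
    rw [ret_neg h]
  | succ n ih =>
    intro l x y hn
    by_cases h : x ≠ y ∧ l y ≠ 0
    · rw [ret_pos h]
      have h1 := nu_lt h.2
      have := ih (Function.update l y 0) x (ph σ l y) (by omega)
      omega
    · rw [ret_neg h]

theorem ret_Y {σ : Fin 3 → Equiv.Perm V} (s0 : σ 0 = 1) {g : V} (x : V) :
    ∀ (n : ℕ) (l : V → Fin 3) (y : V) (Y : Finset V), nu l ≤ n → y ∈ Y → g ∉ Y →
      (∀ v ∈ Y, v ≠ x → ph σ l v ∈ Y) → ret σ l x y g = l g := by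
  intro n
  induction n with
  | zero =>
    intro l y Y hn _ _ _
    have h : ¬ (x ≠ y ∧ l y ≠ 0) := by
      rintro ⟨_, h2⟩
      have := nu_lt h2
      omega
    rw [ret_neg h]
  | succ n ih =>
    intro l y Y hn hy hg hY
    by_cases h : x ≠ y ∧ l y ≠ 0
    · rw [ret_pos h]
      have h1 := nu_lt h.2
      rw [ih (Function.update l y 0) (ph σ l y) Y (by omega) (hY y hy h.1.symm) hg ?_]
      · rw [Function.update_of_ne]
        rintro rfl
        exact hg hy
      · intro v hv hvx
        rcases eq_or_ne v y with rfl | hvy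
        · rw [ph_update_self, s0]
          exact hv
        · rw [ph_update_ne _ _ _ hvy]
          exact hY v hv hvx
    · rw [ret_neg h]

/-- deleting the edge of a row of a perfect matching -/
theorem np_del {σ : Fin 3 → Equiv.Perm V} {P : V → Fin 3} (h : PF σ P) (v : V) :
    NP σ (Function.update P v 0) v (ph σ P v) := by
  refine ⟨Function.update_self _ _ _, ?_, ?_⟩
  · intro w hw
    rw [ph_update_ne _ _ _ hw]
    intro h2
    exact hw (h h2)
  · intro w u hw hu
    rw [ph_update_ne _ _ _ hw, ph_update_ne _ _ _ hu]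
    intro h2
    exact h h2

/-- a row move -/
theorem np_row {σ : Fin 3 → Equiv.Perm V} {l : V → Fin 3} {x y g : V} {j : Fin 3}
    (h : NP σ l x y) (hg : g ≠ x) (hj : ph σ l g = σ j x) :
    NP σ (Function.update (Function.update l x j) g 0) g y := by
  obtain ⟨_, h2, h3⟩ := h
  refine ⟨Function.update_self _ _ _, ?_, ?_⟩
  · intro w hw
    rw [ph_update_ne _ _ _ hw]
    rcases eq_or_ne w x with rfl | hwx
    · rw [ph_update_self, ← hj]
      exact h2 g hg
    · rw [ph_update_ne _ _ _ hwx]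
      exact h2 w hwx
  · intro w u hw hu
    rw [ph_update_ne _ _ _ hw, ph_update_ne _ _ _ hu]
    rcases eq_or_ne w x with rfl | hwx
    · rcases eq_or_ne u w with rfl | hux
      · intro _; rfl
      · rw [ph_update_self, ph_update_ne _ _ _ hux, ← hj]
        intro h4
        exact absurd (h3 g u hg hux h4) (Ne.symm hu)
    · rcases eq_or_ne u x with rfl | hux
      · rw [ph_update_self, ph_update_ne _ _ _ hwx, ← hj]
        intro h4
        exact absurd (h3 w g hwx hg h4) hw
      · rw [ph_update_ne _ _ _ hwx, ph_update_ne _ _ _ hux]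
        exact h3 w u hwx hux

/-- a column move -/
theorem np_col {σ : Fin 3 → Equiv.Perm V} {l : V → Fin 3} {x y r : V} {j : Fin 3}
    (h : NP σ l x y) (hr : r ≠ x) (hj : σ j r = y) :
    NP σ (Function.update l r j) x (ph σ l r) := by
  obtain ⟨h1, h2, h3⟩ := h
  refine ⟨?_, ?_, ?_⟩
  · rw [Function.update_of_ne (Ne.symm hr)]
    exact h1
  · intro w hw
    rcases eq_or_ne w r with rfl | hwr
    · rw [ph_update_self, hj]
      exact (h2 w hw).symm
    · rw [ph_update_ne _ _ _ hwr]
      intro h4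
      exact hwr (h3 w r hw hr h4)
  · intro w u hw hu
    rcases eq_or_ne w r with rfl | hwr
    · rcases eq_or_ne u w with rfl | huw
      · intro _; rfl
      · rw [ph_update_self, ph_update_ne _ _ _ huw, hj]
        intro h4
        exact absurd h4.symm (h2 u hu)
    · rcases eq_or_ne u r with rfl | hur
      · rw [ph_update_self, ph_update_ne _ _ _ hwr, hj]
        intro h4
        exact absurd h4 (h2 w hw)
      · rw [ph_update_ne _ _ _ hwr, ph_update_ne _ _ _ hur]
        exact h3 w u hw hu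

/-- column retraction -/
theorem np_colret {σ : Fin 3 → Equiv.Perm V} (s0 : σ 0 = 1) {l : V → Fin 3} {x y : V}
    (h : NP σ l x y) (hxy : x ≠ y) : NP σ (Function.update l y 0) x (ph σ l y) :=
  np_col h hxy.symm (by rw [s0]; rfl)

/-- row retraction -/
theorem np_rowret {σ : Fin 3 → Equiv.Perm V} (s0 : σ 0 = 1) {l : V → Fin 3} {x y p : V}
    (h : NP σ l x y) (hp : p ≠ x) (hpx : ph σ l p = x) : NP σ (Function.update l p 0) p y := by
  have h4 := np_row (j := 0) h hp (by rw [s0, hpx]; rfl)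
  have h5 : Function.update l x 0 = l := by
    have := h.1
    conv_lhs => rw [← this]
    exact Function.update_eq_self x l
  rwa [h5] at h4

theorem ne_zero_col {σ : Fin 3 → Equiv.Perm V} (s0 : σ 0 = 1) {l : V → Fin 3} {x y : V}
    (h : NP σ l x y) (hxy : x ≠ y) : l y ≠ 0 := by
  intro h2
  exact h.2.1 y hxy.symm (ph_zero s0 h2)

theorem pf_self {σ : Fin 3 → Equiv.Perm V} (s0 : σ 0 = 1) {l : V → Fin 3} {x : V}
    (h : NP σ l x x) : PF σ l := by
  obtain ⟨h1, h2, h3⟩ := h
  intro v w hvw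
  have hx := ph_zero s0 h1
  by_cases hv : v = x
  · by_cases hw : w = x
    · rw [hv, hw]
    · rw [hv, hx] at hvw
      exact absurd hvw.symm (h2 w hw)
  · by_cases hw : w = x
    · rw [hw, hx] at hvw
      exact absurd hvw (h2 v hv)
    · exact h3 v w hv hw hvw

theorem pf_ret {σ : Fin 3 → Equiv.Perm V} (s0 : σ 0 = 1) (x : V) :
    ∀ (n : ℕ) (l : V → Fin 3) (y : V), nu l ≤ n → NP σ l x y → PF σ (ret σ l x y) := by
  intro n
  induction n with
  | zero =>
    intro l y hn hN
    have h : ¬ (x ≠ y ∧ l y ≠ 0) := by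
      rintro ⟨_, h2⟩
      have := nu_lt h2
      omega
    rw [ret_neg h]
    by_cases hxy : x = y
    · subst hxy
      exact pf_self s0 hN
    · exact absurd ⟨hxy, ne_zero_col s0 hN hxy⟩ h
  | succ n ih =>
    intro l y hn hN
    by_cases h : x ≠ y ∧ l y ≠ 0
    · rw [ret_pos h]
      have h1 := nu_lt h.2
      exact ih _ _ (by omega) (np_colret s0 hN h.1)
    · rw [ret_neg h]
      by_cases hxy : x = y
      · subst hxy
        exact pf_self s0 hN
      · exact absurd ⟨hxy, ne_zero_col s0 hN hxy⟩ h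

/-- reading off the potential at any row -/
theorem Ps_read {σ : Fin 3 → Equiv.Perm V} {b c : ℤ} (s0 : σ 0 = 1) {M : ℕ}
    (hM : XM σ b c M) {l : V → Fin 3} {x y g : V} (hN : NP σ l x y)
    (hnu : nu (ret σ l x y) ≤ M) (hg : ret σ l x y g ≠ 0) :
    Ps σ b c l x y = Fd σ b c (Bg σ b c g) l x y := by
  rw [Ps_eq_Fd σ b c (nu l) l x y le_rfl]
  have h := Fd_sub σ b c (Bs σ b c) (Bg σ b c g) (nu l) l x y le_rfl
  have h2 : Bs σ b c (ret σ l x y) = Bg σ b c g (ret σ l x y) := by
    unfold Bs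
    have h' : ∃ v, ret σ l x y v ≠ 0 := ⟨g, hg⟩
    rw [dif_pos h']
    exact hM _ (pf_ret s0 x (nu l) l y le_rfl hN) hnu _ _ h'.choose_spec hg
  linarith

end Pool.Agent.R3.H4
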