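import Mathlib
import Pool.Agent.R3.Stmts
import Pool.Agent.Helper4_R3.Kit

set_option autoImplicit false
set_option linter.unusedSectionVars false

namespace Pool.Agent.R3.H4

variable {V : Type} [Fintype V] [DecidableEq V]

/-- a closed set of rows of a perfect matching is also closed backwards -/
theorem back {σ : Fin 3 → Equiv.Perm V} {P : V → Fin 3} (hP : PF σ P) {R : Finset V}
    (hR : ∀ v ∈ R, ph σ P v ∈ R) {v : V} (hv : ph σ P v ∈ R) : v ∈ R := by
  have h1 : R.image (ph σ P) = R := by
    apply Finset.eq_of_subset_of_card_le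
    · intro w hw
      rw [Finset.mem_image] at hw
      obtain ⟨u, hu, rfl⟩ := hw
      exact hR u hu
    · rw [Finset.card_image_of_injective R hP]
  rw [← h1, Finset.mem_image] at hv
  obtain ⟨u, hu, hu2⟩ := hv
  rw [← hP hu2]
  exact hu

theorem msa (upt : UptStmt) (dnt : DntStmt) (row : RowStmt) (col : ColStmt) : MsaStmt := by
  intro V _ _ σ b c d ctx M hM P R x₀ g j hP hnu hR0 hRc hx₀ hPg hg hj
  have s0 := ctx.s0
  have hxg : x₀ ≠ g := by
    rintro rfl
    exact hg hx₀
  have hPx : P x₀ ≠ 0 := hR0 x₀ hx₀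
  have hc : ph σ P g ∉ R := fun h => hg (back hP hRc h)
  have hj0 : j ≠ 0 := by
    rintro rfl
    rw [s0] at hj
    have hj2 : x₀ = ph σ P g := hj
    rw [hj2] at hx₀
    exact hc hx₀
  have hA : NP σ (Function.update P x₀ 0) x₀ (ph σ P x₀) := np_del hP x₀
  have hG : NP σ (Function.update P g 0) g (ph σ P g) := np_del hP g
  -- the row move
  have e1 := row V σ b c d ctx (Function.update P x₀ 0) x₀ (ph σ P x₀) g j R hA
    (by rw [Function.update_of_ne hxg.symm]; exact hPg) hj0
    (by rw [ph_update_ne _ _ _ hxg.symm]; exact hj.symm) hx₀ (hRc x₀ hx₀) hg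
    (fun v hv hvx => by rw [ph_update_ne _ _ _ hvx]; exact hRc v hv)
  -- the column move
  have e2 := col V σ b c d ctx (Function.update P g 0) g (ph σ P g) x₀ j R hG
    (by rw [Function.update_of_ne hxg]; exact hPx) hj0 hj hx₀ hg hc
    (fun v hv => by
      have hvg : v ≠ g := by
        rintro rfl
        exact hg hv
      rw [ph_update_ne _ _ _ hvg]
      exact hRc v hv)
  rw [Function.update_idem] at e1
  rw [ph_update_ne _ _ _ hxg, ← Function.update_comm hxg] at e2
  -- reading off
  have nA := nu_add P x₀ hPx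
  have nG := nu_add P g hPg
  have r1 : Ps σ b c (Function.update P x₀ 0) x₀ (ph σ P x₀) =
      Fd σ b c (Bg σ b c g) (Function.update P x₀ 0) x₀ (ph σ P x₀) := by
    apply Ps_read s0 hM hA
    · have := nu_ret σ _ (Function.update P x₀ 0) x₀ (ph σ P x₀) le_rfl
      omega
    · rw [ret_Y s0 x₀ _ (Function.update P x₀ 0) (ph σ P x₀) R le_rfl (hRc x₀ hx₀) hg
        (fun v hv hvx => by rw [ph_update_ne _ _ _ hvx]; exact hRc v hv),
        Function.update_of_ne hxg.symm]
      exact hPg
  have r2 : Ps σ b c (Function.update P g 0) g (ph σ P g) =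
      Fd σ b c (Bg σ b c x₀) (Function.update P g 0) g (ph σ P g) := by
    apply Ps_read s0 hM hG
    · have := nu_ret σ _ (Function.update P g 0) g (ph σ P g) le_rfl
      omega
    · rw [ret_Y s0 g _ (Function.update P g 0) (ph σ P g) Rᶜ le_rfl (Finset.mem_compl.2 hc)
        (fun h => (Finset.mem_compl.1 h) hx₀)
        (fun v hv hvx => by
          rw [ph_update_ne _ _ _ hvx, Finset.mem_compl]
          exact fun h => (Finset.mem_compl.1 hv) (back hP hRc h)),
        Function.update_of_ne hxg]
      exact hPx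
  have t1 : Bg σ b c x₀ P = W b c P (Function.update P x₀ 0) +
      Ps σ b c (Function.update P x₀ 0) x₀ (ph σ P x₀) := rfl
  have t2 : Bg σ b c g P = W b c P (Function.update P g 0) +
      Ps σ b c (Function.update P g 0) g (ph σ P g) := rfl
  -- the triangles
  have d1 := dnt b c (pt P) 0 (P x₀) (P g) (ctx.cen P hP)
  have pA : pt (Function.update P x₀ 0) = pt P - dl (P x₀) := by
    rw [pt_update, dl_zero]
    exact add_zero _
  have pG : pt (Function.update P g 0) = pt P - dl (P g) := by
    rw [pt_update, dl_zero]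
    exact add_zero _
  have u1 := upt b c (pt P - dl (P x₀) - dl (P g)) (P g) (P x₀) j
  have pL : pt (Function.update (Function.update P x₀ j) g 0) =
      pt P - dl (P x₀) - dl (P g) + dl j := by
    rw [pt_update, pt_update, dl_zero, Function.update_of_ne hxg.symm]
    have : ((0 : ℤ), (0 : ℤ)) = 0 := rfl
    rw [this]
    abel
  have q1 : pt P - dl (P x₀) - dl (P g) + dl (P g) = pt P - dl (P x₀) := by abel
  have q2 : pt P - dl (P x₀) - dl (P g) + dl (P x₀) = pt P - dl (P g) := by abel
  have q3 : pt P - dl 0 = pt P := by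
    rw [dl_zero]
    exact sub_zero _
  rw [q1, q2] at u1
  rw [q3] at d1
  unfold W at e1 e2 t1 t2
  rw [pA, pL] at e1
  rw [pG, pL] at e2
  rw [pA] at t1
  rw [pG] at t2
  linarith

end Pool.Agent.R3.H4
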