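import Mathlib
import Pool.Agent.R3.Stmts
import Pool.Agent.Helper4_R3.Kit
import Pool.Agent.Helper4_R3.Msa

set_option autoImplicit false
set_option linter.unusedSectionVars false

namespace Pool.Agent.R3.H4

variable {V : Type} [Fintype V] [DecidableEq V]

theorem cover {σ : Fin 3 → Equiv.Perm V} (s0 : σ 0 = 1) {P : V → Fin 3} (hP : PF σ P) {w : V}
    (hw : P w ≠ 0) : ∃ u, P u ≠ 0 ∧ ph σ P u = w := by
  obtain ⟨u, hu⟩ := (Finite.surjective_of_injective hP) w
  refine ⟨u, ?_, hu⟩
  intro h
  rw [ph_zero s0 h] at hu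
  subst hu
  exact hw h

theorem col_ne {σ : Fin 3 → Equiv.Perm V} (s0 : σ 0 = 1) {P : V → Fin 3} (hP : PF σ P) {w : V}
    (hw : P w ≠ 0) : P (ph σ P w) ≠ 0 := by
  intro h
  have h1 := ph_zero s0 h
  have h2 := hP h1
  rw [h2] at h
  exact hw h

theorem np_cover {σ : Fin 3 → Equiv.Perm V} {l : V → Fin 3} {z y w : V} (h : NP σ l z y)
    (hw : w ≠ y) : ∃ p, p ≠ z ∧ ph σ l p = w := by
  obtain ⟨_, h2, h3⟩ := h
  have h4 : (Finset.univ.erase z).image (ph σ l) = Finset.univ.erase y := by
    apply Finset.eq_of_subset_of_card_le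
    · intro v hv
      rw [Finset.mem_image] at hv
      obtain ⟨u, hu, rfl⟩ := hv
      exact Finset.mem_erase.2 ⟨h2 u (Finset.ne_of_mem_erase hu), Finset.mem_univ _⟩
    · rw [Finset.card_image_of_injOn]
      · rw [Finset.card_erase_of_mem (Finset.mem_univ _),
          Finset.card_erase_of_mem (Finset.mem_univ _)]
      · intro u hu v hv huv
        exact h3 u v (Finset.ne_of_mem_erase (Finset.mem_coe.1 hu))
          (Finset.ne_of_mem_erase (Finset.mem_coe.1 hv)) huv
  have h5 : w ∈ (Finset.univ.erase z).image (ph σ l) := by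
    rw [h4]
    exact Finset.mem_erase.2 ⟨hw, Finset.mem_univ _⟩
  rw [Finset.mem_image] at h5
  obtain ⟨p, hp, hp2⟩ := h5
  exact ⟨p, Finset.ne_of_mem_erase hp, hp2⟩

theorem ov_z {σ : Fin 3 → Equiv.Perm V} {P l : V → Fin 3} {z y : V}
    (h : Over σ P l z y) : P z = 0 := by
  by_contra h1
  have h2 := h.2.2 z h1
  rw [h.1.1] at h2
  exact h1 h2.symm

theorem ov_ph {σ : Fin 3 → Equiv.Perm V} {P l : V → Fin 3} {z y v : V}
    (h : Over σ P l z y) (hv : P v ≠ 0) : ph σ l v = ph σ P v := by
  unfold ph
  rw [h.2.2 v hv]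

theorem ov_y {σ : Fin 3 → Equiv.Perm V} (s0 : σ 0 = 1) {P l : V → Fin 3} (hP : PF σ P) {z y : V}
    (h : Over σ P l z y) : P y = 0 := by
  by_contra h1
  obtain ⟨u, hu, hu2⟩ := cover s0 hP h1
  have h3 : u ≠ z := by
    rintro rfl
    exact hu (ov_z h)
  apply h.1.2.1 u h3
  rw [ov_ph h hu, hu2]

theorem ov_c {σ : Fin 3 → Equiv.Perm V} (s0 : σ 0 = 1) {P l : V → Fin 3} (hP : PF σ P) {z y v : V}
    (h : Over σ P l z y) (hv : P v = 0) (hvz : v ≠ z) : P (ph σ l v) = 0 := by
  by_contra h1
  obtain ⟨u, hu, hu2⟩ := cover s0 hP h1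
  have h3 : u ≠ z := by
    rintro rfl
    exact hu (ov_z h)
  have h4 := h.1.2.2 u v h3 hvz (by rw [ov_ph h hu, hu2])
  rw [h4] at hu
  exact hu hv

theorem ret1 (fdr : FdrStmt) {σ : Fin 3 → Equiv.Perm V} {b c : ℤ} {d : ℤ × ℤ} (ctx : Ctx σ b c d)
    {P : V → Fin 3} (hP : PF σ P) {x₀ y : V} {j : Fin 3} (hx : P x₀ ≠ 0) (hj : σ j x₀ = y) :
    ∀ (n : ℕ) (l : V → Fin 3) (z : V), nu l ≤ n → Over σ P l z y →
      ret σ (Function.update l x₀ j) z (ph σ P x₀) =
        ret σ (Function.update P x₀ 0) x₀ (ph σ P x₀) := by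
  have s0 := ctx.s0
  intro n
  induction n with
  | zero =>
    intro l z hn ho
    have hz := ov_z ho
    have hxz : x₀ ≠ z := by
      rintro rfl
      exact hx hz
    have hzc : z ≠ ph σ P x₀ := by
      intro h
      exact col_ne s0 hP hx (h ▸ hz)
    have hN1 : NP σ (Function.update l x₀ j) z (ph σ P x₀) := by
      have := np_col ho.1 hxz hj
      rwa [ov_ph ho hx] at this
    have h : ¬ (z ≠ y ∧ l y ≠ 0) := by
      rintro ⟨_, h2⟩
      have := nu_lt h2
      omega
    have hlP : l = P := by
      have := ho.2.1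
      rwa [ret_neg h] at this
    have hzy : z = y := by
      by_contra h5
      exact h ⟨h5, ne_zero_col s0 ho.1 h5⟩
    have f := (fdr V σ b c d ctx (fun _ => 0) (Function.update l x₀ j) z (ph σ P x₀) x₀ hN1
      hzc hxz (by rw [ph_update_self, hj, hzy])).2
    rw [Function.update_idem, hlP] at f
    rw [hlP]
    exact f.symm
  | succ n ih =>
    intro l z hn ho
    have hz := ov_z ho
    have hxz : x₀ ≠ z := by
      rintro rfl
      exact hx hz
    have hzc : z ≠ ph σ P x₀ := by
      intro h
      exact col_ne s0 hP hx (h ▸ hz)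
    have hN1 : NP σ (Function.update l x₀ j) z (ph σ P x₀) := by
      have := np_col ho.1 hxz hj
      rwa [ov_ph ho hx] at this
    by_cases hzy : z = y
    · have h : ¬ (z ≠ y ∧ l y ≠ 0) := fun h => h.1 hzy
      have hlP : l = P := by
        have := ho.2.1
        rwa [ret_neg h] at this
      have f := (fdr V σ b c d ctx (fun _ => 0) (Function.update l x₀ j) z (ph σ P x₀) x₀ hN1
        hzc hxz (by rw [ph_update_self, hj, hzy])).2
      rw [Function.update_idem, hlP] at f
      rw [hlP]
      exact f.symm
    · obtain ⟨p, hpz, hp⟩ := np_cover ho.1 hzy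
      have hPp : P p = 0 := by
        by_contra h1
        rw [ov_ph ho h1] at hp
        have h2 := ph_zero s0 hz
        exact hpz (hP (hp.trans h2.symm))
      have hlp : l p ≠ 0 := by
        intro h1
        rw [ph_zero s0 h1] at hp
        exact hpz hp
      have hxp : x₀ ≠ p := by
        rintro rfl
        exact hx hPp
      have f0 := (fdr V σ b c d ctx (fun _ => 0) l z y p ho.1 hzy hpz hp).2
      have ho' : Over σ P (Function.update l p 0) p y := by
        refine ⟨np_rowret s0 ho.1 hpz hp, ?_, ?_⟩
        · rw [f0]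
          exact ho.2.1
        · intro v hv
          have hvp : v ≠ p := by
            rintro rfl
            exact hv hPp
          rw [Function.update_of_ne hvp]
          exact ho.2.2 v hv
      have hlt := nu_lt hlp
      have i1 := ih (Function.update l p 0) p (by omega) ho'
      have f := (fdr V σ b c d ctx (fun _ => 0) (Function.update l x₀ j) z (ph σ P x₀) p hN1
        hzc hpz (by rw [ph_update_ne _ _ _ hxp.symm]; exact hp)).2
      rw [Function.update_comm hxp] at f
      rw [← f, i1]

theorem ret2 {σ : Fin 3 → Equiv.Perm V} (s0 : σ 0 = 1)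
    {P : V → Fin 3} (hP : PF σ P) {g z : V} {i : Fin 3} (hg : P g ≠ 0) (hi : σ i z = ph σ P g)
    (hi0 : i ≠ 0) :
    ∀ (n : ℕ) (l : V → Fin 3) (y : V), nu l ≤ n → Over σ P l z y →
      ret σ (Function.update (Function.update l z i) g 0) g y =
        ret σ (Function.update P g 0) g (ph σ P g) := by
  intro n
  induction n with
  | zero =>
    intro l y hn ho
    have hz := ov_z ho
    have hgz : g ≠ z := by
      rintro rfl
      exact hg hz
    have h : ¬ (z ≠ y ∧ l y ≠ 0) := by
      rintro ⟨_, h2⟩
      have := nu_lt h2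
      omega
    have hlP : l = P := by
      have := ho.2.1
      rwa [ret_neg h] at this
    have hzy : z = y := by
      by_contra h5
      exact h ⟨h5, ne_zero_col s0 ho.1 h5⟩
    subst hzy
    rw [hlP, ret_pos ⟨hgz, by rw [Function.update_of_ne hgz.symm, Function.update_self]; exact hi0⟩,
      ph_update_ne _ _ _ hgz.symm, ph_update_self, hi, Function.update_comm hgz,
      Function.update_idem]
    have : Function.update P z 0 = P := by
      conv_lhs => rw [← hz]
      exact Function.update_eq_self z P
    rw [this]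
  | succ n ih =>
    intro l y hn ho
    have hz := ov_z ho
    have hgz : g ≠ z := by
      rintro rfl
      exact hg hz
    by_cases hzy : z = y
    · have h : ¬ (z ≠ y ∧ l y ≠ 0) := fun h => h.1 hzy
      have hlP : l = P := by
        have := ho.2.1
        rwa [ret_neg h] at this
      subst hzy
      rw [hlP, ret_pos ⟨hgz, by
          rw [Function.update_of_ne hgz.symm, Function.update_self]; exact hi0⟩,
        ph_update_ne _ _ _ hgz.symm, ph_update_self, hi, Function.update_comm hgz,
        Function.update_idem]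
      have : Function.update P z 0 = P := by
        conv_lhs => rw [← hz]
        exact Function.update_eq_self z P
      rw [this]
    · have hly := ne_zero_col s0 ho.1 hzy
      have hPy := ov_y s0 hP ho
      have hgy : g ≠ y := by
        rintro rfl
        exact hg hPy
      have ho' : Over σ P (Function.update l y 0) z (ph σ l y) := by
        refine ⟨np_colret s0 ho.1 hzy, ?_, ?_⟩
        · have := ho.2.1
          rwa [ret_pos ⟨hzy, hly⟩] at this
        · intro v hv
          have hvy : v ≠ y := by
            rintro rfl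
            exact hv hPy
          rw [Function.update_of_ne hvy]
          exact ho.2.2 v hv
      have hlt := nu_lt hly
      have i1 := ih (Function.update l y 0) (ph σ l y) (by omega) ho'
      rw [ret_pos ⟨hgy, by
          rw [Function.update_of_ne hgy.symm, Function.update_of_ne (Ne.symm hzy)]; exact hly⟩,
        ph_update_ne _ _ _ hgy.symm, ph_update_ne _ _ _ (Ne.symm hzy),
        Function.update_comm hgy, Function.update_comm hzy]
      exact i1

theorem msb (sqa : SqaStmt) (fdr : FdrStmt) (row : RowStmt) (col : ColStmt) : MsbStmt := by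
  intro V _ _ σ b c d ctx M hM P l R x₀ g z y j i hP hnu hR0 hRc hx₀ hPg hg ho hj hi
  have s0 := ctx.s0
  have hPx : P x₀ ≠ 0 := hR0 x₀ hx₀
  have hz := ov_z ho
  have hy := ov_y s0 hP ho
  have hxg : x₀ ≠ g := by
    rintro rfl
    exact hg hx₀
  have hxz : x₀ ≠ z := by
    rintro rfl
    exact hPx hz
  have hgz : g ≠ z := by
    rintro rfl
    exact hPg hz
  have hzR : z ∉ R := fun h => hR0 z h hz
  have hyR : y ∉ R := fun h => hR0 y h hy
  have hlx : l x₀ = P x₀ := ho.2.2 x₀ hPx
  have hlg : l g = P g := ho.2.2 g hPg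
  have hphx : ph σ l x₀ = ph σ P x₀ := ov_ph ho hPx
  have hphg : ph σ l g = ph σ P g := ov_ph ho hPg
  have hj0 : j ≠ 0 := by
    rintro rfl
    rw [s0] at hj
    have hj2 : x₀ = y := hj
    rw [hj2] at hPx
    exact hPx hy
  have hi0 : i ≠ 0 := by
    rintro rfl
    rw [s0] at hi
    have hi2 : z = ph σ P g := hi
    have h3 := ph_zero s0 hz
    exact hgz (hP (hi2.symm.trans h3.symm))
  have hN : NP σ l z y := ho.1
  have hN1 : NP σ (Function.update l x₀ j) z (ph σ P x₀) := by
    have := np_col hN hxz hj
    rwa [hphx] at this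
  have hN2 : NP σ (Function.update (Function.update l z i) g 0) g y :=
    np_row hN hgz (by rw [hphg, hi])
  have hN3 : NP σ (Function.update (Function.update (Function.update l x₀ j) z i) g 0) g
      (ph σ P x₀) :=
    np_row hN1 hgz (by rw [ph_update_ne _ _ _ hxg.symm, hphg, hi])
  have hRl : ∀ v ∈ R, ph σ l v ∈ R := by
    intro v hv
    rw [ov_ph ho (hR0 v hv)]
    exact hRc v hv
  -- C1
  have e1 := col V σ b c d ctx l z y x₀ j R hN (by rw [hlx]; exact hPx) hj0 hj hx₀ hzR hyR hRl
  -- R1
  have e2 := row V σ b c d ctx l z y g i (Finset.univ.filter (fun v => P v = 0)) hN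
    (by rw [hlg]; exact hPg) hi0 (by rw [hphg, hi]) (by simpa using hz) (by simpa using hy)
    (by simpa using hPg)
    (fun v hv hvz => by
      have h1 : P v = 0 := by simpa using hv
      simpa using ov_c s0 hP ho h1 hvz)
  -- R2
  have e3 := row V σ b c d ctx (Function.update l x₀ j) z (ph σ P x₀) g i
    (Finset.univ.filter (fun v => P v = 0) ∪ R) hN1
    (by rw [Function.update_of_ne hxg.symm, hlg]; exact hPg) hi0
    (by rw [ph_update_ne _ _ _ hxg.symm, hphg, hi])
    (Finset.mem_union_left _ (by simpa using hz)) (Finset.mem_union_right _ (hRc x₀ hx₀))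
    (by
      rw [Finset.mem_union]
      rintro (h | h)
      · exact hPg (by simpa using h)
      · exact hg h)
    (fun v hv hvz => by
      rcases eq_or_ne v x₀ with rfl | hvx
      · rw [ph_update_self, hj]
        exact Finset.mem_union_left _ (by simpa using hy)
      · rw [ph_update_ne _ _ _ hvx]
        rcases Finset.mem_union.1 hv with h | h
        · have h1 : P v = 0 := by simpa using h
          exact Finset.mem_union_left _ (by simpa using ov_c s0 hP ho h1 hvz)
        · exact Finset.mem_union_right _ (hRl v h))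
  -- C2
  have e4 := col V σ b c d ctx (Function.update (Function.update l z i) g 0) g y x₀ j R hN2
    (by rw [Function.update_of_ne hxg, Function.update_of_ne hxz, hlx]; exact hPx) hj0 hj hx₀
    hg hyR
    (fun v hv => by
      have hvg : v ≠ g := by
        rintro rfl
        exact hg hv
      have hvz : v ≠ z := by
        rintro rfl
        exact hzR hv
      rw [ph_update_ne _ _ _ hvg, ph_update_ne _ _ _ hvz]
      exact hRl v hv)
  rw [hphx] at e1
  rw [ph_update_ne _ _ _ hxg, ph_update_ne _ _ _ hxz, hphx, ← Function.update_comm hxg,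
    ← Function.update_comm hxz] at e4
  -- reading off
  have nA := nu_add P x₀ hPx
  have nG := nu_add P g hPg
  have k1 := ret1 fdr ctx hP hPx hj (nu l) l z le_rfl ho
  have k2 := ret2 s0 hP hPg hi hi0 (nu l) l y le_rfl ho
  have r1 : Ps σ b c (Function.update l x₀ j) z (ph σ P x₀) =
      Fd σ b c (Bg σ b c g) (Function.update l x₀ j) z (ph σ P x₀) := by
    apply Ps_read s0 hM hN1
    · rw [k1]
      have := nu_ret σ _ (Function.update P x₀ 0) x₀ (ph σ P x₀) le_rfl
      omega
    · rw [k1, ret_Y s0 x₀ _ (Function.update P x₀ 0) (ph σ P x₀) R le_rfl (hRc x₀ hx₀) hg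
        (fun v hv hvx => by rw [ph_update_ne _ _ _ hvx]; exact hRc v hv),
        Function.update_of_ne hxg.symm]
      exact hPg
  have hc : ph σ P g ∉ R := fun h => hg (back hP hRc h)
  have r2 : Ps σ b c (Function.update (Function.update l z i) g 0) g y =
      Fd σ b c (Bg σ b c x₀) (Function.update (Function.update l z i) g 0) g y := by
    apply Ps_read s0 hM hN2
    · rw [k2]
      have := nu_ret σ _ (Function.update P g 0) g (ph σ P g) le_rfl
      omega
    · rw [k2, ret_Y s0 g _ (Function.update P g 0) (ph σ P g) Rᶜ le_rfl (Finset.mem_compl.2 hc)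
        (fun h => (Finset.mem_compl.1 h) hx₀)
        (fun v hv hvx => by
          rw [ph_update_ne _ _ _ hvx, Finset.mem_compl]
          exact fun h => (Finset.mem_compl.1 hv) (back hP hRc h)),
        Function.update_of_ne hxg]
      exact hPx
  have fs := Fd_sub σ b c (Bg σ b c x₀) (Bg σ b c g) (nu l) l z y le_rfl
  rw [ho.2.1] at fs
  -- the square
  set k : ℤ × ℤ := pt l - dl (P x₀) - dl (P g) with hk
  have pl : pt l = k + dl (P x₀) + dl (P g) := by
    rw [hk]
    abel
  have z0 : ((0 : ℤ), (0 : ℤ)) = 0 := rfl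
  have p1 : pt (Function.update l x₀ j) = k + dl j + dl (P g) := by
    rw [pt_update, hlx, hk]
    abel
  have p2 : pt (Function.update (Function.update l z i) g 0) = k + dl (P x₀) + dl i := by
    rw [pt_update, pt_update, Function.update_of_ne hgz, hlg, hN.1, dl_zero, z0, hk]
    abel
  have p3 : pt (Function.update (Function.update (Function.update l x₀ j) z i) g 0) =
      k + dl j + dl i := by
    rw [pt_update, pt_update, pt_update, Function.update_of_ne hgz,
      Function.update_of_ne hxg.symm, Function.update_of_ne hxz.symm, hlg, hN.1, hlx, dl_zero,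
      z0, hk]
    abel
  have sq := sqa b c d k (P x₀) j (P g) i ctx.hd
    (by rw [← pl]; exact ctx.miss l z y hN) (by rw [← p1]; exact ctx.miss _ z _ hN1)
    (by rw [← p3]; exact ctx.miss _ g _ hN3) (by rw [← p2]; exact ctx.miss _ g y hN2)
  unfold W at e1 e2 e3 e4
  rw [pl, p1] at e1
  rw [pl, p2] at e2
  rw [p1, p3] at e3
  rw [p2, p3] at e4
  linarith

end Pool.Agent.R3.H4
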